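import Pool.Agent.helper47.TFQ.Spec

/-!
# Project tfq, row QD6: the norm of the function `Φ` (any finite field)
-/

set_option autoImplicit false

namespace Pool.Agent.TFQ

open Polynomial Pool.Agent.GJ Pool.Agent.TK
open Pool.Agent.FJ (VT Om chiO IsFrobO rf rs)
open Pool.Agent.TD (zK)

noncomputable section

/-- the norm as a product of conjugates -/
theorem QD6_norm {A S Ω : Type} [CommRing A] [CommRing S] [Algebra A S] [Field Ω]
    (pb : PowerBasis A S) (φ : Fin pb.dim → (S →+* Ω)) (ψ : A →+* Ω)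
    (hψ : ∀ i c, φ i (algebraMap A S c) = ψ c)
    (hinj : Function.Injective fun i => φ i pb.gen) (z : S) :
    ψ (Algebra.norm A z) = ∏ i, φ i z := by
  classical
  rw [Algebra.norm_eq_matrix_det pb.basis]
  have hV : (Matrix.vandermonde fun i => φ i pb.gen) *
      (ψ.mapMatrix (Algebra.leftMulMatrix pb.basis z)) =
      Matrix.diagonal (fun i => φ i z) * Matrix.vandermonde (fun i => φ i pb.gen) := by
    ext i j
    have h1 : ∀ k, φ i (pb.basis k) = φ i pb.gen ^ (k : ℕ) := fun k => by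
      rw [pb.basis_eq_pow, map_pow]
    have h : ∑ k, ψ (pb.basis.repr (z * pb.basis j) k) * φ i pb.gen ^ (k : ℕ) =
        φ i z * φ i pb.gen ^ (j : ℕ) := by
      rw [← h1 j, ← map_mul (φ i)]
      refine Eq.trans ?_ (congrArg (φ i) (pb.basis.sum_repr (z * pb.basis j)))
      rw [map_sum (φ i)]
      refine Finset.sum_congr rfl fun k _ => ?_
      rw [Algebra.smul_def, map_mul (φ i), hψ, h1]
    rw [Matrix.mul_apply, Matrix.diagonal_mul]
    simp only [Matrix.vandermonde_apply, RingHom.mapMatrix_apply, Matrix.map_apply,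
      Algebra.leftMulMatrix_eq_repr_mul]
    rw [← h]
    exact Finset.sum_congr rfl fun k _ => mul_comm _ _
  have hdet := congrArg Matrix.det hV
  rw [Matrix.det_mul, Matrix.det_mul, Matrix.det_diagonal, mul_comm] at hdet
  have hne : (Matrix.vandermonde fun i => φ i pb.gen).det ≠ 0 :=
    Matrix.det_vandermonde_ne_zero_iff.2 hinj
  have h2 := mul_right_cancel₀ hne hdet
  rw [← h2, RingHom.map_det]

/-- scaling of the variables -/
theorem QD6_scale {n : ℕ} {R : Type} [CommRing R] (u : Fin (n + 1) → R)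
    (P : MvPolynomial (Fin (n + 1)) R) (e : Fin (n + 1) →₀ ℕ) :
    MvPolynomial.coeff e (MvPolynomial.aeval
      (fun j => (MvPolynomial.C (u j) * MvPolynomial.X j : MvPolynomial (Fin (n + 1)) R)) P) =
      (∏ j, u j ^ e j) * MvPolynomial.coeff e P := by
  classical
  induction P using MvPolynomial.induction_on' with
  | monomial m c =>
    have h1 : (MvPolynomial.aeval
      (fun j => (MvPolynomial.C (u j) * MvPolynomial.X j : MvPolynomial (Fin (n + 1)) R)))
        (MvPolynomial.monomial m c) = MvPolynomial.monomial m ((∏ j, u j ^ m j) * c) := by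
      rw [MvPolynomial.aeval_monomial, MvPolynomial.monomial_eq (s := m) (a := (∏ j, u j ^ m j) * c),
        Finsupp.prod_fintype _ _ (fun _ => pow_zero _), Finsupp.prod_fintype _ _ (fun _ => pow_zero _)]
      simp only [mul_pow, Finset.prod_mul_distrib, MvPolynomial.C_mul, map_prod, map_pow]
      rw [MvPolynomial.algebraMap_eq]
      ring
    rw [h1, MvPolynomial.coeff_monomial, MvPolynomial.coeff_monomial]
    by_cases h : m = e
    · rw [if_pos h, if_pos h, h]
    · rw [if_neg h, if_neg h, mul_zero]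
  | add p q hp hq => rw [map_add, MvPolynomial.coeff_add, hp, hq, MvPolynomial.coeff_add, mul_add]

theorem QD6_upow {F : Type} [Field F] [Fintype F] (x : Fˣ) : x ^ (cq F - 1) = 1 :=
  Units.ext (by
    rw [Units.val_pow_eq_pow_val, Units.val_one]
    exact FiniteField.pow_card_sub_one_eq_one (x : F) x.ne_zero)

theorem QD6_pos (F : Type) [Field F] [Fintype F] : 0 < cq F - 1 := by
  have h : 1 < Fintype.card F := Fintype.one_lt_card
  show 0 < Fintype.card F - 1
  omega

/-- the product over the whole group -/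
def QD6_P {F : Type} [Field F] [Fintype F] [DecidableEq F] {K : Type} [Field K] (ε : F →+* K) {n : ℕ} (β : Fin (n + 1) → K) :
    MvPolynomial (Fin (n + 1)) K :=
  ∏ w : Fin (n + 1) → Fˣ,
    (∑ j, MvPolynomial.C (β j * ε (w j : F)) * MvPolynomial.X j - 1)

theorem QD6_inv {F : Type} [Field F] [Fintype F] [DecidableEq F] {K : Type} [Field K] (ε : F →+* K) {n : ℕ}
    (β : Fin (n + 1) → K) (u : Fin (n + 1) → Fˣ) :
    MvPolynomial.aeval (fun j => (MvPolynomial.C (ε (u j : F)) * MvPolynomial.X j :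
      MvPolynomial (Fin (n + 1)) K)) (QD6_P ε β) = QD6_P ε β := by
  rw [QD6_P, map_prod]
  refine Fintype.prod_equiv (Equiv.mulRight u) _ _ fun w => ?_
  rw [map_sub, map_one, map_sum]
  refine congrArg (fun s => s - 1) (Finset.sum_congr rfl fun j _ => ?_)
  rw [map_mul, MvPolynomial.aeval_X, MvPolynomial.algHom_C, MvPolynomial.algebraMap_eq]
  show _ = MvPolynomial.C (β j * ε (((w j * u j : Fˣ)) : F)) * MvPolynomial.X j
  simp only [Units.val_mul, map_mul]
  ring

theorem QD6_div {F : Type} [Field F] [Fintype F] [DecidableEq F] {K : Type} [Field K] (ε : F →+* K) {n : ℕ}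
    (β : Fin (n + 1) → K) (e : Fin (n + 1) →₀ ℕ) (he : e ∈ (QD6_P ε β).support)
    (j : Fin (n + 1)) : cq F - 1 ∣ e j := by
  classical
  have h0 : MvPolynomial.coeff e (QD6_P ε β) ≠ 0 := MvPolynomial.mem_support_iff.1 he
  have h1 := (FiniteField.forall_pow_eq_one_iff F (e j)).1 (fun x => ?_)
  · exact h1
  · have h2 := congrArg (MvPolynomial.coeff e) (QD6_inv ε β (Function.update 1 j x))
    rw [QD6_scale (fun i => ε ((Function.update (1 : Fin (n + 1) → Fˣ) j x i : Fˣ) : F))] at h2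
    have h3 : (∏ i, (ε ((Function.update (1 : Fin (n + 1) → Fˣ) j x i : Fˣ) : F)) ^ e i) = 1 := by
      have h4 : (∏ i, (ε ((Function.update (1 : Fin (n + 1) → Fˣ) j x i : Fˣ) : F)) ^ e i - 1) *
          MvPolynomial.coeff e (QD6_P ε β) = 0 := by
        rw [sub_mul, h2, one_mul, sub_self]
      exact sub_eq_zero.1 ((mul_eq_zero.1 h4).resolve_right h0)
    rw [Finset.prod_eq_single j (fun i _ hi => by
      rw [Function.update_of_ne hi, Pi.one_apply, Units.val_one, map_one, one_pow])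
      (fun h => absurd (Finset.mem_univ j) h), Function.update_self, ← map_pow] at h3
    have h5 : ((x : F)) ^ e j = 1 := ε.injective (by rw [h3, map_one])
    exact Units.ext (by rw [Units.val_pow_eq_pow_val, h5, Units.val_one])

theorem QD6_deg {F : Type} [Field F] [Fintype F] [DecidableEq F] {K : Type} [Field K] (ε : F →+* K) {n : ℕ}
    (β : Fin (n + 1) → K) : (QD6_P ε β).totalDegree ≤ (cq F - 1) ^ (n + 1) := by
  classical
  refine (MvPolynomial.totalDegree_finsetProd _ _).trans ?_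
  refine (Finset.sum_le_card_nsmul _ _ 1 fun w _ => ?_).trans ?_
  · refine (MvPolynomial.totalDegree_sub _ _).trans (max_le ?_ ?_)
    · refine MvPolynomial.totalDegree_finsetSum_le fun j _ => ?_
      refine (MvPolynomial.totalDegree_mul _ _).trans ?_
      rw [MvPolynomial.totalDegree_C, MvPolynomial.totalDegree_X]
    · rw [MvPolynomial.totalDegree_one]
      exact Nat.zero_le _
  · rw [Finset.card_univ, Fintype.card_fun, Fintype.card_units, Fintype.card_fin, smul_eq_mul, mul_one]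

/-- the polynomial `g` -/
def QD6_g {F : Type} [Field F] [Fintype F] [DecidableEq F] {K : Type} [Field K] (ε : F →+* K) {n : ℕ} (a : Fin (n + 1) → F)
    (β : Fin (n + 1) → K) : K[X] :=
  ∑ e ∈ (QD6_P ε β).support, C (MvPolynomial.coeff e (QD6_P ε β)) *
    ∏ j, (X - C (bQ ε a j)) ^ (e j / (cq F - 1))

theorem QD6_g_deg {F : Type} [Field F] [Fintype F] [DecidableEq F] {K : Type} [Field K] (ε : F →+* K) {n : ℕ}
    (a : Fin (n + 1) → F) (β : Fin (n + 1) → K) (hp : 0 < cq F - 1) :
    (QD6_g ε a β).natDegree ≤ (cq F - 1) ^ n := by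
  classical
  refine natDegree_sum_le_of_forall_le _ _ fun e he => ?_
  refine (natDegree_C_mul_le _ _).trans ?_
  refine (natDegree_prod_le _ _).trans ?_
  have h1 : ∀ j : Fin (n + 1), ((X - C (bQ ε a j)) ^ (e j / (cq F - 1)) : K[X]).natDegree = e j / (cq F - 1) := by
    intro j
    rw [natDegree_pow, natDegree_X_sub_C, mul_one]
  have h2 : ∑ j, (e j / (cq F - 1)) * (cq F - 1) ≤ (cq F - 1) ^ (n + 1) := by
    have h3 : ∑ j, (e j / (cq F - 1)) * (cq F - 1) = ∑ j, e j :=
      Finset.sum_congr rfl fun j _ => Nat.div_mul_cancel (QD6_div ε β e he j)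
    rw [h3]
    refine le_trans ?_ (QD6_deg ε β)
    have h4 := MvPolynomial.le_totalDegree he
    rwa [Finsupp.sum_fintype _ _ (fun _ => rfl)] at h4
  rw [← Finset.sum_mul, pow_succ] at h2
  rw [Finset.sum_congr rfl fun j _ => h1 j]
  exact Nat.le_of_mul_le_mul_right h2 hp

theorem QD6_g_eval {F : Type} [Field F] [Fintype F] [DecidableEq F] {K : Type} [Field K] (ε : F →+* K) {n : ℕ}
    (a : Fin (n + 1) → F) (β : Fin (n + 1) → K) {Ω : Type} [Field Ω] (θ : K →+* Ω) (x : Ω)
    (t : Fin (n + 1) → Ω) (ht : ∀ j, t j ^ (cq F - 1) = x - θ (bQ ε a j)) :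
    eval₂ θ x (QD6_g ε a β) = ∏ w : Fin (n + 1) → Fˣ,
      (∑ j, θ (β j * ε (w j : F)) * t j - 1) := by
  classical
  have h1 : MvPolynomial.eval₂ θ t (QD6_P ε β) = ∏ w : Fin (n + 1) → Fˣ,
      (∑ j, θ (β j * ε (w j : F)) * t j - 1) := by
    rw [QD6_P, ← MvPolynomial.coe_eval₂Hom, map_prod]
    refine Finset.prod_congr rfl fun w _ => ?_
    rw [map_sub, map_one, map_sum]
    refine congrArg (fun s => s - 1) (Finset.sum_congr rfl fun j _ => ?_)
    rw [map_mul, MvPolynomial.coe_eval₂Hom, MvPolynomial.eval₂_C, MvPolynomial.eval₂_X]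
  rw [← h1, MvPolynomial.eval₂_eq', QD6_g, eval₂_finsetSum]
  refine Finset.sum_congr rfl fun e he => ?_
  rw [eval₂_mul, eval₂_C, eval₂_finsetProd]
  refine congrArg (fun s => _ * s) (Finset.prod_congr rfl fun j _ => ?_)
  rw [eval₂_pow, eval₂_sub, eval₂_X, eval₂_C, ← ht, ← pow_mul, Nat.mul_div_cancel' (QD6_div ε β e he j)]

/-- elements of order dividing `Q - 1` are in the finite field -/
theorem QD6_root {F : Type} [Field F] [Fintype F] [DecidableEq F] {Ω : Type} [Field Ω] (φ : F →+* Ω) (z : Ω)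
    (hz : z ^ (cq F - 1) = 1) : ∃ w : Fˣ, φ (w : F) = z := by
  classical
  have hp1 : cq F - 1 ≠ 0 := (QD6_pos F).ne'
  by_contra hcon
  push Not at hcon
  set S : Finset Ω := insert z (Finset.univ.image fun w : Fˣ => φ (w : F)) with hS
  have hcard : S.card = cq F - 1 + 1 := by
    rw [hS, Finset.card_insert_of_notMem (by
      rw [Finset.mem_image]
      rintro ⟨w, _, hw⟩
      exact hcon w hw), Finset.card_image_of_injective _ (fun w w' h =>
        Units.ext (φ.injective h)), Finset.card_univ, Fintype.card_units]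
  have h1 : S.val ⊆ (nthRoots (cq F - 1) (1 : Ω)) := by
    intro y hy
    rw [mem_nthRoots (Nat.pos_of_ne_zero hp1)]
    have hy2 : y ∈ S := hy
    rw [hS, Finset.mem_insert, Finset.mem_image] at hy2
    rcases hy2 with rfl | ⟨w, _, rfl⟩
    · exact hz
    · rw [← map_pow, ← Units.val_pow_eq_pow_val, QD6_upow, Units.val_one, map_one]
  have h2 : S.card ≤ cq F - 1 :=
    (Multiset.card_le_card ((Multiset.le_iff_subset S.nodup).2 h1)).trans (card_nthRoots _ _)
  rw [hcard] at h2
  omega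

/-- `χ` is onto the elements of order dividing `l` -/
theorem QD6_chi {F : Type} [Field F] [Fintype F] [DecidableEq F] {l α n : ℕ} [Fact l.Prime] (μ : Fin (n + 1) → ℕ)
    (hl : l * α = cq F - 1) (hμ : 0 < μ 0 ∧ μ 0 < l) (s : Fˣ) (hs : s ^ l = 1) :
    ∃ w : Fin (n + 1) → Fˣ, chq α μ (fun j => (w j : F)) = (s : F) := by
  classical
  have hlp : l.Prime := Fact.out
  obtain ⟨g, hg⟩ := IsCyclic.exists_generator (α := Fˣ)
  obtain ⟨e, he⟩ := (Submonoid.mem_powers_iff _ _).1 ((mem_powers_iff_mem_zpowers).2 (hg s))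
  have hord : orderOf g = cq F - 1 := by
    rw [orderOf_eq_card_of_forall_mem_zpowers hg, Nat.card_eq_fintype_card, Fintype.card_units]
  have h1 : α ∣ e := by
    rw [← he, ← pow_mul, ← orderOf_dvd_iff_pow_eq_one, hord, ← hl, mul_comm e l] at hs
    exact Nat.dvd_of_mul_dvd_mul_left hlp.pos hs
  obtain ⟨e', rfl⟩ := h1
  have hcop : Nat.Coprime (μ 0) l :=
    (Nat.Coprime.symm ((Nat.Prime.coprime_iff_not_dvd hlp).2 fun h =>
      absurd (Nat.le_of_dvd hμ.1 h) (not_le.2 hμ.2)))
  obtain ⟨k, hk⟩ : ∃ k : ℕ, k * μ 0 ≡ e' [MOD l] := by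
    obtain ⟨m, hm⟩ := Nat.exists_mul_mod_eq_one_of_coprime hcop hlp.one_lt
    refine ⟨m * e', ?_⟩
    have h2 : μ 0 * m ≡ 1 [MOD l] := by
      rw [Nat.ModEq, hm.2, Nat.mod_eq_of_lt hlp.one_lt]
    have h3 := h2.mul_right e'
    rw [one_mul] at h3
    have h4 : m * e' * μ 0 = μ 0 * m * e' := by ring
    rw [h4]
    exact h3
  refine ⟨Function.update 1 0 (g ^ k), ?_⟩
  rw [chq, Finset.prod_eq_single 0 (fun i _ hi => by
      show (((Function.update (1 : Fin (n + 1) → Fˣ) 0 (g ^ k) i : Fˣ)) : F) ^ _ = 1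
      rw [Function.update_of_ne hi, Pi.one_apply, Units.val_one, one_pow])
      (fun h => absurd (Finset.mem_univ _) h)]
  show (((Function.update (1 : Fin (n + 1) → Fˣ) 0 (g ^ k) 0 : Fˣ)) : F) ^ _ = _
  rw [Function.update_self, ← Units.val_pow_eq_pow_val, ← he, ← pow_mul]
  refine congrArg _ ?_
  rw [pow_eq_pow_iff_modEq, hord, ← hl]
  have h5 := hk.mul_right' α
  have h6 : k * (μ 0 * α) = k * μ 0 * α := by ring
  have h7 : α * e' = e' * α := mul_comm _ _
  rw [h6, h7]
  exact h5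

theorem QD6_card {F : Type} [Field F] [Fintype F] [DecidableEq F] {l α : ℕ} [Fact l.Prime] (hl : l * α = cq F - 1) :
    Fintype.card {s : Fˣ // s ^ l = 1} = l := by
  classical
  have h1 := IsCyclic.card_powMonoidHom_ker (G := Fˣ) l
  rw [Nat.card_eq_fintype_card (α := Fˣ), Fintype.card_units, ← hl, Nat.gcd_mul_right_left] at h1
  rw [← Nat.card_eq_fintype_card]
  refine Eq.trans ?_ h1
  exact Nat.card_congr (Equiv.subtypeEquivRight fun s => by rw [MonoidHom.mem_ker, powMonoidHom_apply])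

theorem QD6 : QD6_stmt := by
  intro F _ _ _ K _ _ ε l α n _ _ μ a _ β Φ hl hα hΦ
  classical
  have hlp : l.Prime := Fact.out
  have hp1 : 0 < cq F - 1 := QD6_pos F
  refine ⟨QD6_g ε a β, QD6_g_deg ε a β hp1, ?_⟩
  have hof : Function.Injective (AdjoinRoot.of (GJ.gp K l μ (bQ ε a))) := by
    refine AdjoinRoot.of.injective_of_degree_ne_zero ?_
    rw [Polynomial.degree_eq_natDegree (gp_monic K l μ (bQ ε a)).ne_zero]
    have hd : (GJ.gp K l μ (bQ ε a)).natDegree = l := natDegree_X_pow_sub_C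
    rw [hd]
    exact_mod_cast hlp.ne_zero
  obtain ⟨Ω, iΩ, iA, ι, hι⟩ : ∃ (Ω : Type) (_ : Field Ω) (_ : IsAlgClosed Ω)
      (ι : CR K l μ (bQ ε a) →+* Ω), Function.Injective ι :=
    ⟨AlgebraicClosure (FractionRing (CR K l μ (bQ ε a))), inferInstance, inferInstance,
      (algebraMap (FractionRing (CR K l μ (bQ ε a))) _).comp (algebraMap _ _),
      (algebraMap (FractionRing (CR K l μ (bQ ε a))) _).injective.comp
        (IsFractionRing.injective (CR K l μ (bQ ε a)) (FractionRing (CR K l μ (bQ ε a))))⟩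
  apply hof
  apply hι
  set θ : K →+* Ω := ι.comp (algebraMap K (CR K l μ (bQ ε a))) with hθ
  have hcst : ∀ z : F, (θ.comp ε) z = θ (ε z) := fun z => rfl
  -- right side
  have hr : ι (AdjoinRoot.of (GJ.gp K l μ (bQ ε a)) (algebraMap K[X] (BR K μ (bQ ε a)) (QD6_g ε a β))) =
      eval₂ θ (ι CR.x) (QD6_g ε a β) := by
    have h2 : ι.comp (CR.pol : K[X] →+* CR K l μ (bQ ε a)) = eval₂RingHom θ (ι CR.x) := by
      apply Polynomial.ringHom_ext
      · intro c
        rw [RingHom.comp_apply, CR.pol_C, coe_eval₂RingHom, eval₂_C, hθ, RingHom.comp_apply]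
      · rw [RingHom.comp_apply, CR.pol_X, coe_eval₂RingHom, eval₂_X]
    exact congrArg (fun f => f (QD6_g ε a β)) h2
  -- the roots
  have ht0 : ∀ j, ∃ t : Ω, t ^ (cq F - 1) = ι CR.x - θ (bQ ε a j) := fun j =>
    IsAlgClosed.exists_pow_nat_eq _ hp1
  choose t ht using ht0
  rw [hr, QD6_g_eval ε a β θ (ι CR.x) t ht]
  have hy : ι (CR.y : CR K l μ (bQ ε a)) ≠ 0 := by
    rw [Ne, map_eq_zero_iff ι hι]
    exact (CR.unit_y hlp.ne_zero).ne_zero
  have hyl : ι (CR.y : CR K l μ (bQ ε a)) ^ l = ∏ j, (ι CR.x - θ (bQ ε a j)) ^ μ j := by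
    rw [← map_pow, CR.rel, CR.pol_fp, map_prod]
    refine Finset.prod_congr rfl fun j _ => ?_
    rw [map_pow, map_sub, hθ, RingHom.comp_apply]
  -- the root of unity
  obtain ⟨z0, hz0⟩ : ∃ z : Fˣ, ∏ j, t j ^ (μ j * α) = θ (ε (z : F)) * ι CR.y := by
    have h1 : ((∏ j, t j ^ (μ j * α)) / ι CR.y) ^ l = 1 := by
      rw [div_pow, hyl, ← Finset.prod_pow]
      have h2 : ∀ j, (t j ^ (μ j * α)) ^ l = (ι CR.x - θ (bQ ε a j)) ^ μ j := fun j => by
        rw [← ht, ← pow_mul, ← pow_mul, ← hl]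
        congr 1
        ring
      rw [Finset.prod_congr rfl fun j _ => h2 j, div_self]
      rw [← hyl]
      exact pow_ne_zero _ hy
    obtain ⟨z, hz⟩ := QD6_root (θ.comp ε) ((∏ j, t j ^ (μ j * α)) / ι CR.y) (by
      rw [← hl, pow_mul, h1, one_pow])
    refine ⟨z, ?_⟩
    rw [← hcst, hz, div_mul_cancel₀ _ hy]
  have hz0l : z0 ^ l = 1 := by
    have h1 : (θ (ε (z0 : F)) * ι CR.y) ^ l = ι CR.y ^ l := by
      rw [← hz0, hyl, ← Finset.prod_pow]
      refine Finset.prod_congr rfl fun j _ => ?_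
      rw [← ht, ← pow_mul, ← pow_mul, ← hl]
      congr 1
      ring
    rw [mul_pow] at h1
    have h2 := mul_right_cancel₀ (pow_ne_zero l hy) (h1.trans (one_mul _).symm)
    rw [← map_pow, ← map_pow] at h2
    have h3 : ((z0 : F)) ^ l = 1 :=
      ε.injective (θ.injective (by rw [h2, map_one, map_one]))
    exact Units.ext (by rw [Units.val_pow_eq_pow_val, h3, Units.val_one])
  -- the conjugates
  have hsl : ∀ s : {s : Fˣ // s ^ l = 1}, (ε ((s.1 : Fˣ) : F)) ^ l = 1 := fun s => by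
    rw [← map_pow, ← Units.val_pow_eq_pow_val, s.2, Units.val_one, map_one]
  set σ : {s : Fˣ // s ^ l = 1} → (CR K l μ (bQ ε a) →+* CR K l μ (bQ ε a)) := fun s =>
    CR.map (b := bQ ε a) (RingHom.id K) (fun _ => rfl) (ε ((s.1 : Fˣ) : F)) (hsl s) with hσ
  have hdim : (AdjoinRoot.powerBasis' (gp_monic K l μ (bQ ε a))).dim = l := by
    rw [AdjoinRoot.powerBasis'_dim]
    exact natDegree_X_pow_sub_C
  obtain ⟨e⟩ : Nonempty (Fin (AdjoinRoot.powerBasis' (gp_monic K l μ (bQ ε a))).dim ≃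
      {s : Fˣ // s ^ l = 1}) := by
    rw [hdim]
    exact ⟨(Fintype.equivFinOfCardEq (QD6_card hl)).symm⟩
  have hnorm := QD6_norm (AdjoinRoot.powerBasis' (gp_monic K l μ (bQ ε a)))
    (fun i => ι.comp (σ (e i))) (ι.comp (AdjoinRoot.of (GJ.gp K l μ (bQ ε a)))) (fun i c => by
      have h1 : (ι.comp (σ (e i))).comp (algebraMap (BR K μ (bQ ε a)) (CR K l μ (bQ ε a))) =
          ι.comp (AdjoinRoot.of (GJ.gp K l μ (bQ ε a))) := by
        apply IsLocalization.ringHom_ext (Submonoid.powers (fp K μ (bQ ε a)))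
        apply Polynomial.ringHom_ext
        · intro c
          show ι (σ (e i) (CR.pol (C c))) = ι (CR.pol (C c))
          rw [hσ]
          show ι (CR.map (RingHom.id K) _ _ _ (CR.pol (C c))) = _
          rw [CR.map_pol, Polynomial.map_id]
        · show ι (σ (e i) (CR.pol X)) = ι (CR.pol X)
          rw [hσ]
          show ι (CR.map (RingHom.id K) _ _ _ (CR.pol X)) = _
          rw [CR.map_pol, Polynomial.map_id]
      exact congrArg (fun f => f c) h1) (fun i j hij => by
      have h1 : ∀ i, ι (σ (e i) CR.y) = θ (ε (((e i).1 : Fˣ) : F)) * ι CR.y := by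
        intro i
        rw [hσ]
        show ι (CR.map (RingHom.id K) _ _ _ CR.y) = _
        rw [CR.map_y, map_mul, hθ, RingHom.comp_apply]
      have h2 : ι (σ (e i) CR.y) = ι (σ (e j) CR.y) := hij
      rw [h1, h1] at h2
      have h3 := mul_right_cancel₀ hy h2
      exact e.injective (Subtype.ext (Units.ext (ε.injective (θ.injective h3))))) Φ
  refine hnorm.trans ?_
  have h5 : ∀ i, (ι.comp (σ (e i))) Φ = (fun s => (ι.comp (σ s)) Φ) (e i) := fun _ => rfl
  rw [Finset.prod_congr rfl fun i _ => h5 i, Equiv.prod_comp e (fun s => (ι.comp (σ s)) Φ)]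
  -- the fibres
  set χ : (Fin (n + 1) → Fˣ) → {s : Fˣ // s ^ l = 1} := fun w =>
    ⟨(∏ j, w j ^ (μ j * α)) * z0, by
      rw [mul_pow, hz0l, mul_one, ← Finset.prod_pow]
      refine Finset.prod_eq_one fun j _ => ?_
      rw [← pow_mul]
      have h6 : μ j * α * l = (cq F - 1) * μ j := by
        rw [← hl]
        ring
      rw [h6, pow_mul, QD6_upow, one_pow]⟩ with hχ
  have hχv : ∀ w, ((χ w).1 : Fˣ).val = chq α μ (fun j => (w j : F)) * (z0 : F) := by
    intro w
    rw [hχ]
    show (((∏ j, w j ^ (μ j * α)) * z0 : Fˣ) : F) = _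
    rw [Units.val_mul, Units.coe_prod, chq]
    simp only [Units.val_pow_eq_pow_val]
  rw [← Finset.prod_fiberwise Finset.univ χ]
  refine Finset.prod_congr rfl fun s _ => ?_
  -- one fibre
  have hμ0 : 0 < μ 0 ∧ μ 0 < l := ⟨Good.pos (K := K) (l := l) (μ := μ) (a := bQ ε a) 0,
    Good.lt (K := K) (l := l) (μ := μ) (a := bQ ε a) 0⟩
  obtain ⟨ws, hws⟩ := QD6_chi μ hl hμ0 (s.1 * z0⁻¹) (by
    rw [mul_pow, s.2, inv_pow, hz0l, inv_one, mul_one])
  have h10 : ∀ c : K, (ι.comp (σ s)) (algebraMap K _ c) = θ c := by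
    intro c
    rw [RingHom.comp_apply, hσ]
    show ι (CR.map (RingHom.id K) _ _ _ (algebraMap K _ c)) = _
    rw [CR.map_C]
    rfl
  have h10x : (ι.comp (σ s)) CR.x = ι CR.x := by
    rw [RingHom.comp_apply, hσ]
    show ι (CR.map (RingHom.id K) _ _ _ CR.x) = _
    rw [CR.map_x]
  have h7 := hΦ Ω (ι.comp (σ s)) (fun j => θ (ε (ws j : F)) * t j) (fun j => by
    rw [mul_pow, ht, ← map_pow, ← map_pow, ← Units.val_pow_eq_pow_val,
      QD6_upow, Units.val_one, map_one, map_one, one_mul]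
    rw [map_sub (ι.comp (σ s)), h10, h10x]) (by
    have h8 : (ι.comp (σ s)) CR.y = θ (ε ((s.1 : Fˣ) : F)) * ι CR.y := by
      rw [RingHom.comp_apply, hσ]
      show ι (CR.map (RingHom.id K) _ _ _ CR.y) = _
      rw [CR.map_y, map_mul, hθ, RingHom.comp_apply]
    rw [h8]
    simp only [mul_pow]
    rw [Finset.prod_mul_distrib, hz0, ← mul_assoc]
    refine congrArg (fun z => z * ι CR.y) ?_
    have h9 : ∏ j, θ (ε (ws j : F)) ^ (μ j * α) = θ (ε (((s.1 * z0⁻¹ : Fˣ)) : F)) := by
      rw [← hws, chq, map_prod, map_prod]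
      refine Finset.prod_congr rfl fun j _ => ?_
      rw [map_pow, map_pow]
    rw [h9, ← map_mul, ← map_mul, ← Units.val_mul, inv_mul_cancel_right])
  rw [h7]
  -- bijection
  refine Finset.prod_bij (fun w _ => w * ws) (fun w hw => ?_) (fun w _ w' _ h => mul_right_cancel h)
    (fun w hw => ?_) (fun w _ => ?_)
  · rw [Finset.mem_filter]
    refine ⟨Finset.mem_univ _, Subtype.ext (Units.ext ?_)⟩
    rw [hχv]
    have h11 := (Finset.mem_filter.1 hw).2
    have h12 : chq α μ (fun j => (((w * ws) j : Fˣ) : F)) =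
        chq α μ (fun j => (w j : F)) * chq α μ (fun j => (ws j : F)) := by
      rw [chq, chq, chq, ← Finset.prod_mul_distrib]
      refine Finset.prod_congr rfl fun j _ => ?_
      rw [Pi.mul_apply, Units.val_mul, mul_pow]
    rw [h12, h11, hws, one_mul, ← Units.val_mul, inv_mul_cancel_right]
  · rw [Finset.mem_filter] at hw
    refine ⟨w * ws⁻¹, ?_, by rw [inv_mul_cancel_right]⟩
    rw [HQ, Finset.mem_filter]
    refine ⟨Finset.mem_univ _, ?_⟩
    have h13 : chq α μ (fun j => (((w * ws⁻¹) j : Fˣ) : F)) *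
        chq α μ (fun j => (ws j : F)) = chq α μ (fun j => (w j : F)) := by
      rw [chq, chq, chq, ← Finset.prod_mul_distrib]
      refine Finset.prod_congr rfl fun j _ => ?_
      rw [← mul_pow, ← Units.val_mul, Pi.mul_apply, Pi.inv_apply, inv_mul_cancel_right]
    have h14 := hχv w
    rw [hw.2, ← h13, hws, mul_assoc, ← Units.val_mul, inv_mul_cancel_right] at h14
    have h15 : ((s.1 : Fˣ) : F) ≠ 0 := Units.ne_zero _
    exact mul_right_cancel₀ h15 (h14.symm.trans (one_mul _).symm)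
  · refine congrArg (fun z => z - 1) (Finset.sum_congr rfl fun j _ => ?_)
    rw [h10, Pi.mul_apply, Units.val_mul]
    simp only [map_mul]
    ring

end

end Pool.Agent.TFQ
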